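import Pool.Agent.H74.CO.Final

/-!
There is a complete theory which is convexly orderable (all its models are) and which is not a
reduct of any VC-minimal theory, in whatever language.
-/

set_option autoImplicit false

namespace Pool.Agent.Results.MP_9db22c_lc.NotReductOfVCMinimal

open Pool.Agent.H74.CO

universe u v

theorem result : ∃ (L : FirstOrder.Language.{0, 0}) (T : L.Theory),
    T.IsComplete ∧ IsConvexlyOrderable T ∧
      ∀ (L' : FirstOrder.Language.{u, v}) (T' : L'.Theory), IsVCMinimal T' → ¬ IsReduct T T' :=
  main

end Pool.Agent.Results.MP_9db22c_lc.NotReductOfVCMinimal
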